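import Pool.Agent.MP_4423d6_an.Nonconv

/-!
The strong form (Q2) fails badly: with `N` oscillators, `Ω = (1, 0, …, 0)` and initial phases
`(0, π, …, π)` the pathwise critical coupling is at least `4 N / (3 √3)`, while the critical
coupling is at most `1`.
-/

open Set Metric Filter Topology Real

namespace Pool.Agent.Results.MP_4423d6_an.StrongFormFalse

open Pool.Agent.MP_4423d6_an

/-- frequency vector `(1, 0, …, 0)` -/
def Om (n : ℕ) : Fin (n + 1) → ℝ := fun i => if i = 0 then 1 else 0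

/-- initial phases `(0, π, …, π)` -/
noncomputable def Th (n : ℕ) : Fin (n + 1) → ℝ := fun i => if i = 0 then 0 else π

theorem max_bound (a : ℝ) : (1 + cos a) * sin a ≤ 3 * √3 / 4 := by
  have h1 : ((1 + cos a) * sin a) ^ 2 ≤ (3 * √3 / 4) ^ 2 := by
    have hs : sin a ^ 2 = 1 - cos a ^ 2 := by
      have := sin_sq_add_cos_sq a; linarith
    have h3 : (√3) ^ 2 = 3 := sq_sqrt (by norm_num)
    have e : (3 * √3 / 4) ^ 2 = 27 / 16 := by
      rw [div_pow, mul_pow, h3]; norm_num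
    rw [mul_pow, hs, e]
    nlinarith [mul_nonneg (sq_nonneg (2 * cos a - 1))
      (by nlinarith [sq_nonneg (2 * cos a + 3)] : (0 : ℝ) ≤ 4 * cos a ^ 2 + 12 * cos a + 11)]
  have h2 : 0 ≤ 3 * √3 / 4 := by positivity
  nlinarith [abs_le_of_sq_le_sq h1 h2, le_abs_self ((1 + cos a) * sin a)]

/-- right derivative of a solution at every `t ≥ 0` -/
theorem right_deriv {N : ℕ} {Ω : Fin N → ℝ} {κ : ℝ} {Θ0 : Fin N → ℝ} {γ : ℝ → Fin N → ℝ}
    (hγ : IsSol N Ω κ Θ0 γ) {s : ℝ} (hs : 0 ≤ s) :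
    HasDerivWithinAt γ (field N Ω κ (γ s)) (Ici s) s := by
  rcases eq_or_lt_of_le hs with h | h
  · subst h
    apply hasDerivWithinAt_Ici_of_tendsto_deriv (s := Ioi 0)
    · intro u hu
      exact (hγ.deriv u hu).differentiableAt.differentiableWithinAt
    · exact (hγ.cont 0 (by simp)).mono (Ioi_subset_Ici_self)
    · exact self_mem_nhdsWithin
    · have h1 : Tendsto (fun u => field N Ω κ (γ u)) (𝓝[>] 0) (𝓝 (field N Ω κ (γ 0))) := by
        have hc : Continuous (field N Ω κ) := by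
          unfold field; fun_prop
        exact (hc.tendsto _).comp ((hγ.cont 0 (by simp)).mono (Ioi_subset_Ici_self))
      refine h1.congr' ?_
      filter_upwards [self_mem_nhdsWithin] with u hu
      exact ((hγ.deriv u hu).deriv).symm
  · exact (hγ.deriv s h).hasDerivWithinAt

theorem stays_pi {n : ℕ} {κ : ℝ} (hκ : 0 < κ) {γ : ℝ → Fin (n + 1) → ℝ}
    (hγ : IsSol (n + 1) (Om n) κ (Th n) γ) {j : Fin (n + 1)} (hj : j ≠ 0) {t : ℝ} (ht : 0 ≤ t) :
    γ t j = π := by
  have hcj : ContinuousOn (fun s => γ s j) (Icc 0 t) :=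
    (continuous_apply j).comp_continuousOn (hγ.cont.mono Icc_subset_Ici_self)
  have huniq := ODE_solution_unique
    (v := fun s x => -(κ / ((n + 1 : ℕ) : ℝ) * ∑ i, (1 + cos (γ s i))) * sin x)
    (K := (κ * 2).toNNReal) (a := 0) (b := t) (f := fun s => γ s j) (g := fun _ => π) ?_
    hcj ?_ continuousOn_const ?_ ?_
  · exact huniq ⟨ht, le_rfl⟩
  · intro s
    apply LipschitzWith.of_dist_le_mul
    intro x y
    rw [Real.dist_eq, ← mul_sub, abs_mul, Real.dist_eq, Real.coe_toNNReal _ (by positivity)]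
    apply mul_le_mul _ (abs_sin_sub_sin_le x y) (abs_nonneg _) (by positivity)
    have hpos : (0 : ℝ) < ((n + 1 : ℕ) : ℝ) := by positivity
    have h0 : 0 ≤ ∑ i, (1 + cos (γ s i)) := Finset.sum_nonneg fun i _ => by
      linarith [neg_one_le_cos (γ s i)]
    have h1 : ∑ i, (1 + cos (γ s i)) ≤ ((n + 1 : ℕ) : ℝ) * 2 := by
      calc ∑ i, (1 + cos (γ s i)) ≤ ∑ _i : Fin (n + 1), (2 : ℝ) :=
            Finset.sum_le_sum fun i _ => by linarith [cos_le_one (γ s i)]
        _ = ((n + 1 : ℕ) : ℝ) * 2 := by simp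
    rw [abs_neg, abs_mul, abs_of_nonneg h0, abs_of_nonneg (by positivity)]
    calc κ / ((n + 1 : ℕ) : ℝ) * ∑ i, (1 + cos (γ s i))
        ≤ κ / ((n + 1 : ℕ) : ℝ) * (((n + 1 : ℕ) : ℝ) * 2) :=
          mul_le_mul_of_nonneg_left h1 (by positivity)
      _ = κ * 2 := by field_simp
  · intro s hs
    have h1 := right_deriv hγ hs.1
    have h2 := (hasDerivWithinAt_pi.1 h1) j
    refine h2.congr_deriv ?_
    simp only [field, Om, if_neg hj]
    rw [← Finset.sum_mul]
    ring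
  · intro s hs
    have : HasDerivWithinAt (fun _ : ℝ => π) 0 (Ici s) s := hasDerivWithinAt_const _ _ _
    simpa using this
  · simp [hγ.init, Th, hj]

theorem not_conv (n : ℕ) {κ : ℝ} (hκ : 0 < κ) (hκ2 : κ < 4 * ((n : ℝ) + 1) / (3 * √3)) :
    ¬ Converges (n + 1) (Om n) κ (Th n) := by
  rintro ⟨γ, hγ, hlim⟩
  obtain ⟨l, hl⟩ := hlim 0
  have h3 : 0 < √3 := by positivity
  have hN : (0 : ℝ) < (n : ℝ) + 1 := by positivity
  have hder : ∀ t, 0 < t → HasDerivAt (fun s => γ s 0)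
      (1 - κ / ((n : ℝ) + 1) * ((1 + cos (γ t 0)) * sin (γ t 0))) t := by
    intro t ht
    have h1 := (hasDerivAt_pi.1 (hγ.deriv t ht)) 0
    refine h1.congr_deriv ?_
    simp only [field, Om, if_true]
    rw [Fin.sum_univ_succ]
    have : ∑ i : Fin n, (1 + cos (γ t i.succ)) * sin (γ t 0) = 0 := by
      apply Finset.sum_eq_zero
      intro i _
      rw [stays_pi hκ hγ (Fin.succ_ne_zero i) ht.le, cos_pi]
      ring
    rw [this]
    push_cast
    ring
  have hc : Continuous (fun a : ℝ => 1 - κ / ((n : ℝ) + 1) * ((1 + cos a) * sin a)) := by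
    fun_prop
  have h0 := limit_deriv_zero hder hl ((hc.tendsto l).comp hl)
  have hb := max_bound l
  have h5 : κ / ((n : ℝ) + 1) * ((1 + cos l) * sin l) ≤ κ / ((n : ℝ) + 1) * (3 * √3 / 4) :=
    mul_le_mul_of_nonneg_left hb (by positivity)
  have h6 : κ / ((n : ℝ) + 1) * (3 * √3 / 4) < 1 := by
    rw [lt_div_iff₀ (by positivity)] at hκ2
    rw [div_mul_eq_mul_div, div_lt_one hN]
    linarith
  linarith

theorem kappaC_le (n : ℕ) : kappaC (n + 1) (Om n) ≤ ((1 : ℝ) : EReal) := by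
  unfold kappaC
  apply sInf_le
  refine ⟨1, ⟨by norm_num, ?_⟩, rfl⟩
  intro κ hκ
  have hN : (0 : ℝ) < (n : ℝ) + 1 := by positivity
  set f : ℝ → ℝ := fun a => κ / ((n : ℝ) + 1) * ((1 + cos a + 2 * n) * sin a) with hf
  have hcont : ContinuousOn f (Icc 0 (π / 2)) := by
    apply Continuous.continuousOn
    fun_prop
  have hpi : (0 : ℝ) ≤ π / 2 := by positivity
  have himg := intermediate_value_Icc hpi hcont
  have hmem : (1 : ℝ) ∈ Icc (f 0) (f (π / 2)) := by
    constructor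
    · simp [hf]
    · show 1 ≤ κ / ((n : ℝ) + 1) * ((1 + cos (π / 2) + 2 * n) * sin (π / 2))
      rw [cos_pi_div_two, sin_pi_div_two, div_mul_eq_mul_div, le_div_iff₀ hN]
      have hn : (0 : ℝ) ≤ n := by positivity
      nlinarith
  obtain ⟨a, _, ha⟩ := himg hmem
  refine ⟨fun i => if i = 0 then a else 0, fun i => ?_⟩
  by_cases hi : i = 0
  · subst hi
    simp only [field, Om, if_true]
    rw [Fin.sum_univ_succ]
    simp only [Fin.succ_ne_zero, if_false, if_true, cos_zero, Finset.sum_const, Finset.card_univ,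
      Fintype.card_fin, nsmul_eq_mul]
    simp only [hf] at ha
    push_cast
    linarith
  · simp [field, Om, hi]

/-- With `n + 1` oscillators, `Ω = (1, 0, …, 0)` and `Θ0 = (0, π, …, π)`:
`κ_c(Ω) ≤ 1` but `κ_pc(Θ0, Ω) ≥ 4 (n + 1) / (3 √3)`. -/
theorem result : ∀ n : ℕ, kappaC (n + 1) (Om n) ≤ ((1 : ℝ) : EReal) ∧
    ((4 * ((n : ℝ) + 1) / (3 * √3) : ℝ) : EReal) ≤ kappaPC (n + 1) (Om n) (Th n) := by
  intro n
  refine ⟨kappaC_le n, ?_⟩
  unfold kappaPC
  apply le_sInf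
  rintro _ ⟨k, ⟨hk0, hk⟩, rfl⟩
  apply EReal.coe_le_coe_iff.2
  by_contra hlt
  push Not at hlt
  obtain ⟨κ, h1, h2⟩ := exists_between hlt
  exact not_conv n (hk0.trans h1) h2 (hk κ h1)

end Pool.Agent.Results.MP_4423d6_an.StrongFormFalse
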