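import Pool.Agent.MP_4423d6_an.Main

/-!
The weak form (Q1) of the conjecture is false: for two oscillators with frequencies `(1, 1)` there
is an open set of initial phases of positive Lebesgue measure on which the pathwise critical
coupling strength is strictly larger than the critical coupling strength.
-/

open Set Metric Filter Topology Real

namespace Pool.Agent.Results.MP_4423d6_an.WeakFormFalse

open Pool.Agent.MP_4423d6_an

theorem kappaC_le : kappaC 2 (fun _ => 1) ≤ ((78/100 : ℝ) : EReal) := by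
  unfold kappaC
  apply sInf_le
  refine ⟨78/100, ⟨by norm_num, ?_⟩, rfl⟩
  intro κ hκ
  have hcont : ContinuousOn (fun a : ℝ => κ * ((1 + cos a) * sin a)) (Icc 0 (π / 3)) := by
    apply Continuous.continuousOn
    fun_prop
  have hpi : (0 : ℝ) ≤ π / 3 := by positivity
  have himg := intermediate_value_Icc hpi hcont
  have h3 : (1.732 : ℝ) ≤ √3 := by
    apply le_sqrt_of_sq_le
    norm_num
  have hmem : (1 : ℝ) ∈ Icc ((fun a : ℝ => κ * ((1 + cos a) * sin a)) 0)
      ((fun a : ℝ => κ * ((1 + cos a) * sin a)) (π / 3)) := by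
    constructor
    · simp
    · show 1 ≤ κ * ((1 + cos (π / 3)) * sin (π / 3))
      rw [cos_pi_div_three, sin_pi_div_three]
      nlinarith
  obtain ⟨a, _, ha⟩ := himg hmem
  refine ⟨fun _ => a, fun i => ?_⟩
  simp only [field, Fin.sum_univ_two]
  simp only at ha
  push_cast
  linarith

theorem le_kappaPC {θ : Fin 2 → ℝ} (hθ : θ ∈ badSet) :
    ((159/200 : ℝ) : EReal) ≤ kappaPC 2 (fun _ => 1) θ := by
  obtain ⟨κ, hκ, hconv⟩ := hθ
  unfold kappaPC
  apply le_sInf
  rintro _ ⟨k, ⟨_, hk⟩, rfl⟩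
  have : κ ≤ k := by
    by_contra hlt
    push Not at hlt
    exact hconv (hk κ hlt)
  exact EReal.coe_le_coe_iff.2 (hκ.1.trans this)

/-- For `N = 2` and `Ω = (1, 1)` there is an open set `U` of positive Lebesgue measure such that
`κ_c(Ω) < κ_pc(Θ0, Ω)` for every `Θ0 ∈ U`. -/
theorem result : ∃ U : Set (Fin 2 → ℝ), IsOpen U ∧ 0 < MeasureTheory.volume U ∧
    ∀ Θ0 ∈ U, kappaC 2 (fun _ => 1) < kappaPC 2 (fun _ => 1) Θ0 := by
  refine ⟨interior badSet, isOpen_interior, isOpen_interior.measure_pos _ interior_badSet_nonempty,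
    fun Θ0 hΘ0 => ?_⟩
  refine lt_of_le_of_lt kappaC_le (lt_of_lt_of_le ?_ (le_kappaPC (interior_subset hΘ0)))
  exact EReal.coe_lt_coe_iff.2 (by norm_num : (78/100 : ℝ) < 159/200)

end Pool.Agent.Results.MP_4423d6_an.WeakFormFalse
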